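import Pool.Agent.Y129.GDefs

/-!
# The index of the Tate classes: definitions
-/


open CategoryTheory AlgebraicGeometry Filter Topology

open scoped ENNReal

universe u v w

namespace Pool.Agent.X297.TIL

open Pool.Agent.H914 Pool.Agent.H914.VarClass Pool.Agent.H914.VarClass.Obj
  Pool.Agent.H914.WeilCohomology Pool.Agent.H281R3.HT Pool.Agent.TH125.Gal Pool.Agent.Y129

variable {k : Type u} [Field k] {𝒱 : VarClass k} {ops : CycleOps 𝒱}

/-- The quotients `t n / s n` converge to `N`, and are at most `N` for odd `n`. -/
def IndexIs (t s : ℕ → ℕ) (N : ℕ∞) : Prop :=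
  Tendsto (fun n => (t n : ℝ≥0∞) / s n) atTop (𝓝 (N : ℝ≥0∞)) ∧
    ∀ n, (t (2 * n + 1) : ℝ≥0∞) / s (2 * n + 1) ≤ (N : ℝ≥0∞)

/-- An action of the group `Γ` on the cohomology algebras of all powers of `X` (`act n` is the action
on the cohomology of the product of `n + 1` copies of `X`) with the formal properties of the action of
a Galois group, `χ` being the action on the Tate twists. -/
structure GaloisPowers (W : WeilCohomology.{u, v} ops) (X : 𝒱.Obj) (Γ : Type w) [Group Γ]
    (χ : Γ →* W.Kˣ) where
  /-- the action -/
  act : ∀ n, Γ →* (W.H (pw X n) ≃ₐ[W.K] W.H (pw X n))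
  isAct : PowerAction W X χ act

namespace GaloisPowers

variable {W : WeilCohomology.{u, v} ops} {X : 𝒱.Obj} {Γ : Type w} [Group Γ] {χ : Γ →* W.Kˣ}
  (G : GaloisPowers W X Γ χ)

/-- The element `c` is a Tate class of codimension `j` on the product of `n + 1` copies of `X`. -/
def IsTateClass (n j : ℕ) (c : W.H (pw X n)) : Prop :=
  c ∈ tateClasses χ (W.gr (pw X n)) (G.act n) j

/-- The dimension of the space spanned by all Tate classes on the product of `n + 1` copies
of `X`. -/
noncomputable def tateDim (n : ℕ) : ℕ := Set.finrank W.K {c | ∃ j, G.IsTateClass n j c}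

/-- The Tate conjecture for the product of `n + 1` copies of `X`: the Tate classes are linear
combinations of classes of algebraic cycles. -/
def TateFor (n : ℕ) : Prop :=
  ∀ j c, G.IsTateClass n j c → c ∈ algSpan W (pw X n)

/-- There are `r` Tate classes on powers of `X`, where `r + 1 ≤ N`, such that all Tate classes on
all powers of `X` are linear combinations of classes of algebraic cycles and of images of these `r`
classes under algebraic correspondences. -/
def Generated (N : ℕ∞) : Prop :=
  ∃ (r : ℕ) (c : Fin r → Σ m, W.H (pw X m)), (r : ℕ∞) + 1 ≤ N ∧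
    (∀ i, ∃ j, G.IsTateClass (c i).1 j (c i).2) ∧
    ∀ n j z, G.IsTateClass n j z → z ∈ genBy W X c n

end GaloisPowers

end Pool.Agent.X297.TIL
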