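import Pool.Agent.Y133.Half.Index2
import Pool.Agent.X297.TILDefs

/-!
# The index of the Tate classes: proof
-/


open CategoryTheory AlgebraicGeometry Filter Topology

open scoped ENNReal

universe u v w

namespace Pool.Agent.X297.TIL

open Pool.Agent.H914 Pool.Agent.H914.VarClass Pool.Agent.H914.VarClass.Obj
  Pool.Agent.H914.WeilCohomology Pool.Agent.H281R3.HT Pool.Agent.TH125.Gal Pool.Agent.Y129

variable {k : Type u} [Field k] {𝒱 : VarClass k} {ops : CycleOps 𝒱}

theorem main (W : WeilCohomology.{u, v} ops) (X : 𝒱.Obj) [Nontrivial (W.H X)] {Γ : Type w}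
    [Group Γ] (χ : Γ →* W.Kˣ) (G : GaloisPowers W X Γ χ) :
    ∃ N : ℕ∞, 1 ≤ N ∧ IndexIs G.tateDim (fun n => cycRank ops (pw X n)) N ∧
      (N = 1 ↔ ∀ n, G.TateFor n ∧ HomEqNum W (pw X n)) ∧
      (N ≠ ⊤ → (∀ n, HomEqNum W (pw X n)) ∧ NumNilpotent W X ∧ G.Generated N) := by
  have h := G.isAct
  obtain ⟨N, h1, h2, h3, h4, h5⟩ := Pool.Agent.Y133.Half.stable_index h.stable h.algSpan_le
  have hidx : IsIndex W X (TG W X χ G.act) N := by
    rw [IsIndex]
    simp only [numRank_eq_sum]
    exact h2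
  have hspan : ∀ n, TG W X χ G.act n =
      Submodule.span W.K {z | ∃ j, z ∈ tateClasses χ (W.gr (pw X n)) (G.act n) j} := by
    intro n
    apply le_antisymm
    · refine iSup_le fun j z hz => ?_
      exact Submodule.subset_span ⟨j, hz⟩
    · rw [Submodule.span_le]
      rintro z ⟨j, hz⟩
      exact le_iSup (fun j => tateClasses χ (W.gr (pw X n)) (G.act n) j) j hz
  have hdim : ∀ n, Module.finrank W.K (TG W X χ G.act n) = G.tateDim n := by
    intro n
    rw [hspan n]
    rfl
  have hT : ∀ n, TG W X χ G.act n = algSpan W (pw X n) ↔ G.TateFor n := by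
    intro n
    constructor
    · intro h6 j c hc
      rw [← h6]
      exact le_iSup (fun j => tateClasses χ (W.gr (pw X n)) (G.act n) j) j hc
    · intro h6
      refine le_antisymm (iSup_le fun j z hz => h6 j z hz) (h.algSpan_le n)
  simp only [hdim] at h2 h3
  simp only [hT] at h4
  refine ⟨N, h1, ⟨h2, h3⟩, h4, fun hN => ⟨h5 hN, hidx.numNilpotent h.algSpan_le hN, ?_⟩⟩
  obtain ⟨r, c, hr, hc, hG⟩ := exists_generators h.stable h.algSpan_le hidx hN
    (fun n => {z | ∃ j, z ∈ tateClasses χ (W.gr (pw X n)) (G.act n) j}) hspan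
  refine ⟨r, c, hr, hc, fun n j z hz => ?_⟩
  apply genSys_le_genBy c n
  rw [← hG n]
  exact le_iSup (fun j => tateClasses χ (W.gr (pw X n)) (G.act n) j) j hz


end Pool.Agent.X297.TIL
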