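import Pool.Agent.X297.UB.Main
import Pool.Agent.Y163.TateC

/-!
# One inequality at one point decides the formula of Tate for all powers
-/

open CategoryTheory AlgebraicGeometry Polynomial

universe u v

namespace Pool.Agent.X297.SP

open Pool.Agent.H914 Pool.Agent.W534 Pool.Agent.H914.VarClass Pool.Agent.H914.VarClass.Obj
  Pool.Agent.H914.WeilCohomology Pool.Agent.H281R3.HT Pool.Agent.W536.RR Pool.Agent.W458.MF
  Pool.Agent.X297.UB
open Pool.Agent.Y163 (sq Big PoleOrderIs tate_index')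

variable {k : Type u} [Field k] {𝒱 : VarClass k} {ops : CycleOps 𝒱}
  {W : WeilCohomology.{u, v} ops} {X : 𝒱.Obj} {p : ℕ} {Φ : FrobSystem W p}

lemma pw_eq (X : 𝒱.Obj) (n : ℕ) : Pool.Agent.Y163.pw X n = Pool.Agent.Y129.pw X n := by
  induction n with
  | zero => rfl
  | succ n ih => exact congrArg (fun Z => X.prod Z) ih

lemma poleOrder_unique {σ : W.K →+* ℂ} {j r r' : ℕ} (h : PoleOrderIs Φ σ X j r)
    (h' : PoleOrderIs Φ σ X j r') : r = r' := by
  obtain ⟨t, ht, h⟩ := h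
  obtain ⟨t', ht', h'⟩ := h'
  have h1 := h (t * t') (Nat.mul_pos ht ht') ⟨t', rfl⟩
  have h2 := h' (t * t') (Nat.mul_pos ht ht') ⟨t, mul_comm _ _⟩
  rw [h1] at h2
  have h3 : (-(r : ℤ) : ℤ) = (-(r' : ℤ) : ℤ) := WithTop.coe_injective h2
  omega

/-- The numerical estimate. -/
lemma estimate {b N κ M : ℕ} (hb : 0 < b) (hN : 0 < N) (hκ : κ < N)
    (hM : M = 256 * N ^ 2 * b ^ (4 * N + 4)) :
    2 * ((κ : ℝ) + 1) * (b : ℝ) ^ (2 * κ + 4) * Real.log (M + 2) / M ≤ 1 / 2 := by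
  set A : ℝ := 4 * N * (b : ℝ) ^ (2 * N + 2) with hA
  have hb1 : (1 : ℝ) ≤ b := by exact_mod_cast hb
  have hN1 : (1 : ℝ) ≤ N := by exact_mod_cast hN
  have hpow1 : (1 : ℝ) ≤ (b : ℝ) ^ (2 * N + 2) := one_le_pow₀ hb1
  have hA4 : 4 ≤ A := by
    rw [hA]
    nlinarith
  have hMA : (M : ℝ) = 16 * A ^ 2 := by
    rw [hM, hA]
    push_cast
    ring
  have h1 : 2 * ((κ : ℝ) + 1) * (b : ℝ) ^ (2 * κ + 4) ≤ A / 2 := by
    have e1 : (κ : ℝ) + 1 ≤ N := by exact_mod_cast hκ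
    have e2 : (b : ℝ) ^ (2 * κ + 4) ≤ (b : ℝ) ^ (2 * N + 2) := pow_le_pow_right₀ hb1 (by omega)
    have e3 : ((κ : ℝ) + 1) * (b : ℝ) ^ (2 * κ + 4) ≤ N * (b : ℝ) ^ (2 * N + 2) :=
      mul_le_mul e1 e2 (by positivity) (by positivity)
    rw [hA]
    nlinarith
  have hlog : Real.log (M + 2) ≤ 10 * A := by
    have e1 : Real.log ((M : ℝ) + 2) ≤ Real.log ((5 * A) ^ 2) := by
      apply Real.log_le_log (by positivity)
      rw [hMA]
      nlinarith
    rw [Real.log_pow] at e1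
    have e2 := Real.log_le_sub_one_of_pos (show (0 : ℝ) < 5 * A by positivity)
    push_cast at e1
    linarith
  have hlog0 : 0 ≤ Real.log ((M : ℝ) + 2) := Real.log_nonneg (by
    have : (0 : ℝ) ≤ M := Nat.cast_nonneg M
    linarith)
  rw [div_le_iff₀ (by rw [hMA]; positivity)]
  calc 2 * ((κ : ℝ) + 1) * (b : ℝ) ^ (2 * κ + 4) * Real.log (M + 2)
      ≤ A / 2 * (10 * A) := mul_le_mul h1 hlog hlog0 (by positivity)
    _ ≤ 1 / 2 * M := by rw [hMA]; nlinarith

/-- **One inequality at one point decides the formula of Tate for all powers.** -/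
theorem main [IsAlgClosed W.K] (σ : W.K →+* ℂ) [hp : Fact p.Prime]
    (hRH : ∀ Z, RiemannHyp Φ σ Z) (hX : IntegralNewton Φ σ X) {D : X.Cycles}
    (hD : X.IsCyc 1 D) (hbig : Big ops X D) {b N M : ℕ} (hb : b = Module.finrank W.K (W.H X))
    (hN : N = powerBound b X.dim) (hM : M = 256 * N ^ 2 * b ^ (4 * N + 4)) {z : ℕ}
    (hz : PoleOrderIs Φ σ (sq X M) ((M + 1) * X.dim) z)
    (hlt : 2 * z < 3 * numRank ops (sq X M) ((M + 1) * X.dim)) :
    ∀ n, ∀ j ≤ (Pool.Agent.Y163.pw X n).dim, PoleFormula Φ σ (Pool.Agent.Y163.pw X n) j := by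
  obtain ⟨z', h1, h2, -, h4⟩ := tate_index' (W := W) hp.out.one_lt Φ σ hRH hD hbig
  have hb0 : 0 < b := by
    rw [hb]
    have : Nontrivial (W.H X) := by
      by_contra hcon
      rw [not_nontrivial_iff_subsingleton] at hcon
      have htr := hbig.tr (W := W) hD
      apply htr
      rw [Subsingleton.elim (W.cl X D ^ X.dim) 0, map_zero]
    exact Module.finrank_pos
  have hN0 : 0 < N := by
    rw [hN, powerBound]
    positivity
  have hM0 : 0 < M := by
    rw [hM]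
    positivity
  have hzz : z' M = z := poleOrder_unique (h1 M) hz
  have h5 : ∀ m < N, ∀ j ≤ (Pool.Agent.Y129.pw X m).dim,
      PoleFormula Φ σ (Pool.Agent.Y129.pw X m) j := by
    intro m hm
    rw [← pw_eq]
    refine h4 m M hM0 ?_
    rw [hzz, ← hb]
    have e1 := estimate hb0 hN0 hm hM
    have e2 : (0 : ℝ) < numRank ops (sq X M) ((M + 1) * X.dim) := by exact_mod_cast (h2 M).1
    have e3 : 2 * (z : ℝ) < 3 * numRank ops (sq X M) ((M + 1) * X.dim) := by exact_mod_cast hlt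
    nlinarith
  intro n
  rw [pw_eq]
  exact (UB.main W σ p Φ hRH X hX (by rw [hN, hb])).2.1 h5 n

end Pool.Agent.X297.SP
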